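import Pool.Agent.D0H15.TI.Stm

set_option autoImplicit false

namespace Pool.Agent.D0H6.TI

open Pool.Agent.D0H15.TI

/-- Merging finitely many pairs of points lowers the number of classes by at most the number of the pairs. -/
theorem merge {Z : Type} [Finite Z] (Q : Finset (Z × Z)) :
    ∃ f : Z → Z, (∀ p ∈ Q, f p.1 = f p.2) ∧ Nat.card Z ≤ (Set.range f).ncard + Q.card := by
  classical
  induction Q using Finset.induction_on with
  | empty =>
    refine ⟨id, by simp, ?_⟩
    rw [Set.range_id, Set.ncard_univ]
    simp
  | insert p Q hp ih =>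
    obtain ⟨f, hf, hc⟩ := ih
    refine ⟨fun z => if f z = f p.1 then f p.2 else f z, ?_, ?_⟩
    · intro q hq
      rcases Finset.mem_insert.1 hq with rfl | hq
      · by_cases h : f q.2 = f q.1
        · simp [h]
        · simp [h]
      · simp only [hf q hq]
    · rw [Finset.card_insert_of_notMem hp]
      have h1 : Set.range f ⊆ insert (f p.1)
          (Set.range fun z => if f z = f p.1 then f p.2 else f z) := by
        rintro _ ⟨z, rfl⟩
        by_cases h : f z = f p.1
        · exact Or.inl h
        · exact Or.inr ⟨z, by simp [h]⟩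
      have h2 := Set.ncard_le_ncard h1 (Set.toFinite _)
      have h3 := Set.ncard_insert_le (f p.1)
        (Set.range fun z => if f z = f p.1 then f p.2 else f z)
      omega

/-- An involution which moves at most `2 t` points is given by at most `t` pairs. -/
theorem pairs {Z : Type} [Finite Z] (g : Z → Z) (hg : ∀ z, g (g z) = z) (t : ℕ)
    (ht : Nat.card {z : Z // g z ≠ z} ≤ 2 * t) :
    ∃ Q : Finset (Z × Z), Q.card ≤ t ∧
      ∀ f : Z → Z, (∀ p ∈ Q, f p.1 = f p.2) → ∀ z, f (g z) = f z := by
  classical
  have := Fintype.ofFinite Z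
  obtain ⟨n, ⟨e⟩⟩ := Finite.exists_equiv_fin Z
  let P : Finset Z := Finset.univ.filter fun z => e z < e (g z)
  have hP : 2 * P.card ≤ 2 * t := by
    refine le_trans ?_ ht
    have h1 : (P.image g).card = P.card :=
      Finset.card_image_of_injective _ fun a b hab => by rw [← hg a, hab, hg]
    have h2 : Disjoint P (P.image g) := by
      rw [Finset.disjoint_left]
      intro a ha hb
      obtain ⟨b, hb', rfl⟩ := Finset.mem_image.1 hb
      have h3 := (Finset.mem_filter.1 ha).2
      have h4 := (Finset.mem_filter.1 hb').2
      rw [hg] at h3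
      exact absurd h3 (not_lt.2 h4.le)
    have h3 : P ∪ P.image g ⊆ Finset.univ.filter fun z => g z ≠ z := by
      intro z hz
      rw [Finset.mem_filter]
      refine ⟨Finset.mem_univ _, ?_⟩
      rcases Finset.mem_union.1 hz with hz | hz
      · intro h
        have := (Finset.mem_filter.1 hz).2
        rw [h] at this
        exact lt_irrefl _ this
      · obtain ⟨b, hb, rfl⟩ := Finset.mem_image.1 hz
        intro h
        rw [hg] at h
        have := (Finset.mem_filter.1 hb).2
        rw [← h] at this
        exact lt_irrefl _ this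
    have h4 := Finset.card_le_card h3
    rw [Finset.card_union_of_disjoint h2, h1] at h4
    rw [Nat.card_eq_fintype_card, Fintype.card_subtype]
    omega
  refine ⟨P.image fun z => (z, g z), ?_, ?_⟩
  · have := Finset.card_image_le (s := P) (f := fun z => (z, g z))
    omega
  · intro f hf z
    have key : ∀ z ∈ P, f z = f (g z) := fun z hz =>
      hf (z, g z) (Finset.mem_image_of_mem _ hz)
    rcases lt_trichotomy (e z) (e (g z)) with h | h | h
    · exact (key z (Finset.mem_filter.2 ⟨Finset.mem_univ _, h⟩)).symm
    · rw [← e.injective h]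
    · have := key (g z) (Finset.mem_filter.2 ⟨Finset.mem_univ _, by rwa [hg]⟩)
      rwa [hg] at this

open scoped Classical in
theorem t_COMB : S_COMB := by
  intro G X Z _ _ _ _ _ _ t hfaith hswap hmove I
  have := Fintype.ofFinite X
  choose s hs using hswap
  -- the representatives of the orbits
  let π : X → MulAction.orbitRel.Quotient I X := Quotient.mk _
  let r : X → X := fun x => (π x).out
  have hr : ∀ x, π (r x) = π x := fun x => Quotient.out_eq _
  have hrI : ∀ (i : I) (x : X), r (i • x) = r x := by
    intro i x
    have : π (i • x) = π x := Quotient.sound (MulAction.orbitRel_apply.2 ⟨i, rfl⟩)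
    simp only [r, this]
  -- the transpositions
  let T : Set G := {g | ∃ x, g = s (r x) x}
  let φ : G →* Equiv.Perm X := MulAction.toPermHom G X
  have hφ : Function.Injective φ := by
    rw [injective_iff_map_eq_one]
    intro g hg
    refine hfaith g fun x => ?_
    have := DFunLike.congr_fun hg x
    simpa [φ] using this
  have hφs : ∀ a b, φ (s a b) = Equiv.swap a b := by
    intro a b
    ext x
    simpa [φ] using hs a b x
  have hIT : I ≤ Subgroup.closure T := by
    intro i hi
    let S : Set (Equiv.Perm X) := {g | g.IsSwap ∧ ∃ x, g = Equiv.swap (r x) x}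
    have h1 : φ i ∈ Subgroup.closure S := by
      rw [_root_.mem_closure_isSwap fun f hf => hf.1]
      refine ⟨Set.toFinite _, fun x => ?_⟩
      have step : ∀ y : X, r y ∈ MulAction.orbit (Subgroup.closure S) y := by
        intro y
        by_cases hy : r y = y
        · rw [hy]; exact MulAction.mem_orbit_self _
        · refine ⟨⟨Equiv.swap (r y) y, Subgroup.subset_closure ⟨⟨r y, y, hy, rfl⟩, y, rfl⟩⟩, ?_⟩
          change Equiv.swap (r y) y y = r y
          exact Equiv.swap_apply_right _ _
      have h2 := step x
      have h3 := step (φ i x)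
      have h4 : r (φ i x) = r x := hrI ⟨i, hi⟩ x
      rw [h4] at h3
      rw [← MulAction.orbit_eq_iff] at h2 h3 ⊢
      rw [← h3, h2]
    have h2 : Subgroup.closure S ≤ (Subgroup.closure T).map φ := by
      rw [Subgroup.closure_le]
      rintro _ ⟨-, x, rfl⟩
      exact ⟨s (r x) x, Subgroup.subset_closure ⟨x, rfl⟩, hφs _ _⟩
    obtain ⟨j, hj, hij⟩ := h2 h1
    rw [← hφ hij]
    exact hj
  -- the pairs
  have hinv : ∀ a b, s a b * s a b = 1 := by
    intro a b
    apply hφ
    rw [map_mul, hφs, map_one, Equiv.swap_mul_self]
  have hQ : ∀ x : X, ∃ Q : Finset (Z × Z), Q.card ≤ (if r x = x then 0 else t) ∧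
      ∀ f : Z → Z, (∀ p ∈ Q, f p.1 = f p.2) → ∀ z, f (s (r x) x • z) = f z := by
    intro x
    by_cases hx : r x = x
    · refine ⟨∅, by simp, fun f _ z => ?_⟩
      have : s (r x) x = 1 := by
        apply hφ
        rw [hφs, hx, Equiv.swap_self, map_one]
        rfl
      rw [this, one_smul]
    · obtain ⟨Q, h1, h2⟩ := pairs (fun z : Z => s (r x) x • z)
        (fun z => by rw [smul_smul, hinv, one_smul]) t
        (hmove _ ⟨r x, x, hx, hs _ _⟩)
      exact ⟨Q, by simpa [hx] using h1, h2⟩
  choose Q hQ1 hQ2 using hQ
  obtain ⟨f, hf1, hf2⟩ := merge (Finset.univ.biUnion Q)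
  have hcard : (Finset.univ.biUnion Q).card ≤
      t * (Nat.card X - Nat.card (MulAction.orbitRel.Quotient I X)) := by
    refine Finset.card_biUnion_le.trans ((Finset.sum_le_sum fun x _ => hQ1 x).trans ?_)
    rw [Finset.sum_ite]
    simp only [Finset.sum_const_zero, zero_add, Finset.sum_const, smul_eq_mul]
    rw [mul_comm]
    refine Nat.mul_le_mul_left _ ?_
    have h1 : (Finset.univ.filter fun x => r x = x).card +
        (Finset.univ.filter fun x => ¬ r x = x).card = Nat.card X := by
      rw [Finset.card_filter_add_card_filter_not, Finset.card_univ, Nat.card_eq_fintype_card]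
    have h2 : Nat.card (MulAction.orbitRel.Quotient I X) ≤
        (Finset.univ.filter fun x => r x = x).card := by
      have : Nat.card (MulAction.orbitRel.Quotient I X) ≤
          Nat.card (Finset.univ.filter fun x => r x = x) := by
        refine Nat.card_le_card_of_injective
          (fun q => ⟨q.out, Finset.mem_filter.2 ⟨Finset.mem_univ _, ?_⟩⟩) ?_
        · simp only [r, π]
          rw [Quotient.out_eq]
        · intro a b hab
          have := congrArg Subtype.val hab
          simp only at this
          rw [← Quotient.out_eq a, ← Quotient.out_eq b, this]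
      rwa [Nat.card_eq_fintype_card (α := Finset.filter (fun x => r x = x) Finset.univ), Fintype.card_coe] at this
    omega
  have hconst : ∀ g ∈ Subgroup.closure T, ∀ z, f (g • z) = f z := by
    intro g hg
    induction hg using Subgroup.closure_induction with
    | mem g hg =>
      obtain ⟨x, rfl⟩ := hg
      exact hQ2 x f fun p hp => hf1 p (Finset.mem_biUnion.2 ⟨x, Finset.mem_univ _, hp⟩)
    | one => intro z; rw [one_smul]
    | mul a b _ _ ha hb => intro z; rw [mul_smul, ha, hb]
    | inv a _ ha => intro z; rw [← ha (a⁻¹ • z), smul_inv_smul]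
  have hrange : (Set.range f).ncard ≤ Nat.card (MulAction.orbitRel.Quotient I Z) := by
    rw [← Nat.card_coe_set_eq]
    let F : MulAction.orbitRel.Quotient I Z → Set.range f :=
      Quotient.lift (fun z => ⟨f z, z, rfl⟩) (by
        intro a b hab
        obtain ⟨i, hi⟩ := MulAction.orbitRel_apply.1 hab
        apply Subtype.ext
        change f a = f b
        have := hconst i (hIT i.2) b
        rw [← this]
        congr 1
        exact hi.symm)
    refine Nat.card_le_card_of_surjective F ?_
    rintro ⟨_, z, rfl⟩
    exact ⟨Quotient.mk _ z, rfl⟩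
  have hle : Nat.card (MulAction.orbitRel.Quotient I X) ≤ Nat.card X :=
    Nat.card_le_card_of_surjective (Quotient.mk _) Quotient.mk_surjective
  have h5 : t * (Nat.card X - Nat.card (MulAction.orbitRel.Quotient I X)) +
      t * Nat.card (MulAction.orbitRel.Quotient I X) = t * Nat.card X := by
    rw [← Nat.mul_add, Nat.sub_add_cancel hle]
  omega

end Pool.Agent.D0H6.TI
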